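import Pool.Agent.Q269.DX.St

/-!
JOB DX-TAB: the tables of symbols are equidistributed in a cell.
-/

set_option autoImplicit false
set_option linter.all false

namespace Pool.Agent.Q162.DX

open Finset Polynomial
open Pool.Agent.H341R2.Sharp (lam)
open Pool.Agent.Q269.DX
open Pool.Agent.Q269.DX.Bs (prs)
open Pool.Agent.Y164.PS (L L_comm L_prod_left sg_L sg sg_add sg_zero sg_one abs_sg prod_not_sq sum_update
  abs_lam_le coprime_of_not_dvd)
open Pool.Agent.Y164.HG (ok F2_ne_zero orth3)
open scoped Classical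

section cell

variable {k : Type} [Field k] [Fintype k] [DecidableEq k] {τ ι E : Type} [Fintype τ] [Fintype ι]
  [LinearOrder ι] [Fintype E]

/-- the value of the entries -/
noncomputable def vl (Q : τ → k[X]) (a : E → ι) (b : E → ι ⊕ τ) (T : ι → k[X]) (e : E) : ZMod 2 :=
  L (T (a e)) (Sum.elim T Q (b e))

/-- the hypothesis on the entries -/
structure Ent (lg : Finset ι) (a : E → ι) (b : E → ι ⊕ τ) : Prop where
  ha : ∀ e, a e ∈ lg
  hne : ∀ e, b e ≠ Sum.inl (a e)
  hinj : ∀ e e', a e = a e' → b e = b e' → e = e'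
  hsw : ∀ e e', b e = Sum.inl (a e') → b e' = Sum.inl (a e) → e = e'

/-- the other index of an entry -/
noncomputable def ot (a : E → ι) (b : E → ι ⊕ τ) (j : ι) (e : E) : ι ⊕ τ :=
  if a e = j then b e else Sum.inl (a e)

theorem ot_ne {lg : Finset ι} {a : E → ι} {b : E → ι ⊕ τ} (hE : Ent lg a b) (j : ι) (e : E) :
    ot a b j e ≠ Sum.inl j := by
  unfold ot
  split_ifs with h
  · rw [← h]; exact hE.hne e
  · intro h'
    exact h (Sum.inl_injective h')

theorem ot_inj {lg : Finset ι} {a : E → ι} {b : E → ι ⊕ τ} (hE : Ent lg a b) (j : ι) (e e' : E)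
    (h : a e = j ∨ b e = Sum.inl j) (h' : a e' = j ∨ b e' = Sum.inl j)
    (ho : ot a b j e = ot a b j e') : e = e' := by
  unfold ot at ho
  by_cases h1 : a e = j
  · by_cases h2 : a e' = j
    · rw [if_pos h1, if_pos h2] at ho
      exact hE.hinj e e' (h1.trans h2.symm) ho
    · rw [if_pos h1, if_neg h2] at ho
      have h3 := h'.resolve_left h2
      exact hE.hsw e e' ho (by rw [h3, h1])
  · have h3 := h.resolve_left h1
    by_cases h2 : a e' = j
    · rw [if_neg h1, if_pos h2] at ho
      exact hE.hsw e e' (by rw [h3, h2]) ho.symm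
    · rw [if_neg h1, if_neg h2] at ho
      have h4 := h'.resolve_left h2
      exact hE.hinj e e' (Sum.inl_injective ho) (h3.trans h4.symm)

theorem vl_split (hm : IsSquare (-1 : k)) (Q : τ → k[X]) {lg : Finset ι} {a : E → ι} {b : E → ι ⊕ τ}
    (hE : Ent lg a b) (j : ι) (c : E → ZMod 2) (T : ι → k[X]) (p : k[X]) :
    ∑ e, c e * vl Q a b (Function.update T j p) e =
      ∑ e ∈ univ.filter (fun e => ¬ (a e = j ∨ b e = Sum.inl j)), c e * vl Q a b T e +
      ∑ x ∈ (univ.filter fun e => (a e = j ∨ b e = Sum.inl j) ∧ c e ≠ 0).image (ot a b j),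
        L (Sum.elim T Q x) p := by
  rw [sum_image (fun e he e' he' h => ot_inj hE j e e' (mem_filter.1 he).2.1 (mem_filter.1 he').2.1 h)]
  rw [← sum_filter_not_add_sum_filter univ (fun e => a e = j ∨ b e = Sum.inl j)]
  congr 1
  · refine sum_congr rfl fun e he => ?_
    have h := (mem_filter.1 he).2
    push Not at h
    congr 1
    unfold vl
    rw [Function.update_of_ne h.1]
    congr 1
    rcases hb : b e with i | s
    · have : i ≠ j := fun h' => h.2 (by rw [hb, h'])
      simp only [Sum.elim_inl]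
      exact Function.update_of_ne this _ _
    · rfl
  · have h1 : (univ.filter fun e => (a e = j ∨ b e = Sum.inl j) ∧ c e ≠ 0) =
        (univ.filter fun e => a e = j ∨ b e = Sum.inl j).filter fun e => c e ≠ 0 := by
      rw [filter_filter]
    rw [h1, sum_filter (fun e => c e ≠ 0)]
    refine sum_congr rfl fun e he => ?_
    have h := (mem_filter.1 he).2
    by_cases hc : c e = 0
    · rw [if_neg (by simpa using hc), hc, zero_mul]
    · rw [if_pos hc, F2_ne_zero hc, one_mul]
      unfold vl ot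
      by_cases h1 : a e = j
      · rw [if_pos h1, h1, Function.update_self, L_comm hm]
        congr 1
        have h2 := hE.hne e
        rcases hb : b e with i | s
        · have : i ≠ j := fun h' => h2 (by rw [hb, h', h1])
          simp only [Sum.elim_inl]
          exact Function.update_of_ne this _ _
        · rfl
      · rw [if_neg h1, h.resolve_left h1, Sum.elim_inl, Function.update_self,
          Function.update_of_ne h1, Sum.elim_inl]

variable {Q : τ → k[X]} {𝒞 : ι → Finset k[X]} {lg : Finset ι} {Nd : ℕ} {η : ℝ}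
  (hc : CellX Q 𝒞 lg Nd η) {a : E → ι} {b : E → ι ⊕ τ} (hE : Ent lg a b)

include hc hE in
theorem inner_bound {T : ι → k[X]} (hT : T ∈ Fintype.piFinset 𝒞) (c : E → ZMod 2) (e₀ : E)
    (he₀ : c e₀ ≠ 0) :
    |∑ p ∈ 𝒞 (a e₀), (if ok Q (Function.update T (a e₀) p) then
        sg (∑ e, c e * vl Q a b (Function.update T (a e₀) p) e) else 0)|
      ≤ η * (𝒞 (a e₀)).card := by
  set j := a e₀ with hj0
  have hj : j ∈ lg := hE.ha e₀
  have hTm : ∀ i, T i ∈ 𝒞 i := Fintype.mem_piFinset.1 hT
  by_cases hok : ∃ p0 ∈ 𝒞 j, ok Q (Function.update T j p0)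
  swap
  · push Not at hok
    rw [sum_eq_zero (fun p hp => if_neg (hok p hp)), abs_zero]
    exact mul_nonneg hc.eta0 (Nat.cast_nonneg _)
  obtain ⟨p0, hp0, hok0⟩ := hok
  set R : ι ⊕ τ → k[X] := Sum.elim T Q with hR
  have hRm : ∀ x, (R x).Monic := by
    rintro (i | s)
    · exact hc.mon i _ (hTm i)
    · exact hc.Qm s
  have hRi : ∀ x, Irreducible (R x) := by
    rintro (i | s)
    · exact hc.irr i _ (hTm i)
    · exact hc.Qi s
  have hup : ∀ p, ∀ x, x ≠ Sum.inl j → Sum.elim (Function.update T j p) Q x = R x := by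
    rintro p (i | s) hx
    · have : i ≠ j := fun h => hx (by rw [h])
      show Function.update T j p i = T i
      exact Function.update_of_ne this _ _
    · rfl
  have hupj : ∀ p, Sum.elim (Function.update T j p) Q (Sum.inl j) = p := fun p => by
    show Function.update T j p j = p
    exact Function.update_self _ _ _
  have hinj : ∀ x y, x ≠ Sum.inl j → y ≠ Sum.inl j → R x = R y → x = y := by
    intro x y hx hy h
    apply hok0
    rw [hup p0 x hx, hup p0 y hy, h]
  set X : Finset k[X] := (univ.erase (Sum.inl j)).image R with hX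
  have hokp : ∀ p, ok Q (Function.update T j p) ↔ p ∉ X := by
    intro p
    constructor
    · intro h hp
      rw [hX, mem_image] at hp
      obtain ⟨x, hx, hxp⟩ := hp
      have hx' := ne_of_mem_erase hx
      apply hx'
      apply h
      rw [hup p x hx', hupj, hxp]
    · intro hp x y hxy
      by_cases hx : x = Sum.inl j
      · by_cases hy : y = Sum.inl j
        · rw [hx, hy]
        · exfalso
          apply hp
          rw [hx, hupj, hup p y hy] at hxy
          rw [hX, mem_image]
          exact ⟨y, mem_erase.2 ⟨hy, mem_univ _⟩, hxy.symm⟩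
      · by_cases hy : y = Sum.inl j
        · exfalso
          apply hp
          rw [hy, hupj, hup p x hx] at hxy
          rw [hX, mem_image]
          exact ⟨x, mem_erase.2 ⟨hx, mem_univ _⟩, hxy⟩
        · rw [hup p x hx, hup p y hy] at hxy
          exact hinj x y hx hy hxy
  set S : Finset (ι ⊕ τ) :=
    (univ.filter fun e => (a e = j ∨ b e = Sum.inl j) ∧ c e ≠ 0).image (ot a b j) with hS
  have hSj : ∀ x ∈ S, x ≠ Sum.inl j := by
    intro x hx
    obtain ⟨e, -, rfl⟩ := mem_image.1 hx
    exact ot_ne hE j e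
  have hSne : S.Nonempty :=
    ⟨ot a b j e₀, mem_image_of_mem _ (mem_filter.2 ⟨mem_univ _, Or.inl rfl, he₀⟩)⟩
  set M : k[X] := ∏ x ∈ S, R x with hM
  have hMm : M.Monic := monic_prod_of_monic _ _ fun x _ => hRm x
  have hMns : ∀ (c : k) (h : k[X]), M ≠ C c * h ^ 2 := fun c h =>
    prod_not_sq S hSne R (fun x _ => hRm x) (fun x _ => hRi x)
      (fun x hx y hy => hinj x y (hSj x hx) (hSj y hy)) c h
  have hMd : M.natDegree = ∑ x ∈ S, (R x).natDegree := natDegree_prod_of_monic _ _ fun x _ => hRm x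
  have hM1 : 1 ≤ M.natDegree := by
    obtain ⟨x, hx⟩ := hSne
    rw [hMd]
    calc 1 ≤ (R x).natDegree := (hRi x).natDegree_pos
      _ ≤ _ := single_le_sum (f := fun x => (R x).natDegree) (fun _ _ => Nat.zero_le _) hx
  have hMN : M.natDegree ≤ Nd := by
    rw [hMd]
    calc ∑ x ∈ S, (R x).natDegree ≤ ∑ x, (R x).natDegree :=
          sum_le_sum_of_subset (subset_univ _)
      _ = ∑ i, (T i).natDegree + ∑ s, (Q s).natDegree := by
          rw [Fintype.sum_sum_type]; rfl
      _ ≤ Nd := hc.deg T (by simpa only [Fintype.mem_piFinset] using hTm)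
  set K : ZMod 2 := ∑ e ∈ univ.filter (fun e => ¬ (a e = j ∨ b e = Sum.inl j)), c e * vl Q a b T e
    with hK
  have hval : ∀ p ∈ 𝒞 j, p ∉ X → sg (∑ e, c e * vl Q a b (Function.update T j p) e) =
      sg K * (lam M p : ℝ) := by
    intro p hp hpE
    have hpi := hc.irr j p hp
    have hpm := hc.mon j p hp
    have hcop : ∀ x ∈ S, IsCoprime (R x) p := by
      intro x hx
      apply coprime_of_not_dvd hpi
      intro hd
      apply hpE
      rw [hX, mem_image]
      refine ⟨x, mem_erase.2 ⟨hSj x hx, mem_univ _⟩, ?_⟩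
      exact (eq_of_monic_of_associated hpm (hRm x) (hpi.associated_of_dvd (hRi x) hd)).symm
    rw [vl_split hc.hm Q hE, sg_add]
    congr 1
    rw [← L_prod_left hpi.ne_zero (fun x _ => (hRm x).ne_zero) hcop,
      sg_L hpi.ne_zero (IsCoprime.prod_left hcop)]
  have h1 : ∑ p ∈ 𝒞 j, (if ok Q (Function.update T j p) then
      sg (∑ e, c e * vl Q a b (Function.update T j p) e) else 0) =
      sg K * (∑ p ∈ 𝒞 j, (lam M p : ℝ) -
        ∑ p ∈ (𝒞 j).filter (fun p => p ∈ X), (lam M p : ℝ)) := by
    rw [sum_filter, ← sum_sub_distrib, mul_sum]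
    refine sum_congr rfl fun p hp => ?_
    by_cases hpE : p ∈ X
    · rw [if_neg (fun h => (hokp p).1 h hpE), if_pos hpE, sub_self, mul_zero]
    · rw [if_pos ((hokp p).2 hpE), if_neg hpE, hval p hp hpE, sub_zero]
  rw [h1, abs_mul, abs_sg, one_mul]
  refine (abs_sub _ _).trans (le_trans ?_ (hc.eta j hj M hMm hM1 hMN hMns))
  apply add_le_add le_rfl
  refine (abs_sum_le_sum_abs _ _).trans ?_
  calc ∑ p ∈ (𝒞 j).filter (fun p => p ∈ X), |(lam M p : ℝ)|
      ≤ ∑ p ∈ (𝒞 j).filter (fun p => p ∈ X), (1 : ℝ) := sum_le_sum fun p _ => abs_lam_le _ _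
    _ = (((𝒞 j).filter (fun p => p ∈ X)).card : ℝ) := by simp
    _ ≤ ((univ : Finset (ι ⊕ τ)).card : ℝ) := by
        have h2 : ((𝒞 j).filter (fun p => p ∈ X)).card ≤ X.card :=
          card_le_card fun p hp => (mem_filter.1 hp).2
        have h3 : X.card ≤ (univ : Finset (ι ⊕ τ)).card :=
          card_image_le.trans (card_le_card (erase_subset _ _))
        exact_mod_cast h2.trans h3
    _ = _ := by
        rw [card_univ, Fintype.card_sum]
        push_cast
        rfl

include hc hE in
theorem outer_bound (c : E → ZMod 2) (hne : c ≠ 0) :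
    |∑ T ∈ Fintype.piFinset 𝒞, (if ok Q T then sg (∑ e, c e * vl Q a b T e) else 0)| ≤
      η * (Fintype.piFinset 𝒞).card := by
  obtain ⟨e₀, he₀⟩ : ∃ e, c e ≠ 0 := by
    by_contra h
    push Not at h
    exact hne (funext h)
  set j := a e₀ with hj
  rcases (𝒞 j).eq_empty_or_nonempty with he | hne
  · have : Fintype.piFinset 𝒞 = ∅ := by
      rw [Fintype.piFinset_eq_empty]
      exact ⟨j, he⟩
    rw [this]
    simp
  · have hpos : (0 : ℝ) < (𝒞 j).card := by exact_mod_cast card_pos.2 hne
    have h1 := sum_update 𝒞 j (fun T => if ok Q T then sg (∑ e, c e * vl Q a b T e) else 0)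
    have h2 : |((𝒞 j).card : ℝ) * ∑ T ∈ Fintype.piFinset 𝒞,
        (if ok Q T then sg (∑ e, c e * vl Q a b T e) else 0)|
        ≤ ∑ T ∈ Fintype.piFinset 𝒞, η * (𝒞 j).card := by
      rw [h1]
      refine (abs_sum_le_sum_abs _ _).trans (sum_le_sum fun T hT => ?_)
      exact inner_bound hc hE hT c e₀ he₀
    rw [abs_mul, Nat.abs_cast, sum_const, nsmul_eq_mul] at h2
    have h3 : ((𝒞 j).card : ℝ) * |∑ T ∈ Fintype.piFinset 𝒞,
        (if ok Q T then sg (∑ e, c e * vl Q a b T e) else 0)|
        ≤ (𝒞 j).card * (η * (Fintype.piFinset 𝒞).card) := by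
      linarith
    exact le_of_mul_le_mul_left h3 hpos

theorem orthe (f g : E → ZMod 2) :
    (if f = g then (2 : ℝ) ^ Fintype.card E else 0) =
      ∑ c : E → ZMod 2, sg (∑ e, c e * f e) * sg (∑ e, c e * g e) := by
  have h := orth3 (fun e => f e + g e)
  have h1 : (∀ e, f e + g e = 0) ↔ f = g := by
    have h2 : ∀ x y : ZMod 2, x + y = 0 ↔ x = y := by decide
    rw [funext_iff]
    exact forall_congr' fun e => h2 _ _
  simp only [h1] at h
  rw [h]
  refine sum_congr rfl fun c _ => ?_
  rw [← sg_add, ← sum_add_distrib]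
  congr 1
  exact sum_congr rfl fun e _ => by ring

include hc hE in
theorem main (G : (E → ZMod 2) → Prop) :
    (((Fintype.piFinset 𝒞).filter fun T => ok Q T ∧ G (vl Q a b T)).card : ℝ) ≤
      ((univ.filter G).card : ℝ) / 2 ^ Fintype.card E *
        (((Fintype.piFinset 𝒞).filter fun T => ok Q T).card : ℝ) +
      η * 2 ^ Fintype.card E * ((Fintype.piFinset 𝒞).card : ℝ) := by
  set N : ℝ := 2 ^ Fintype.card E with hN
  have hN0 : 0 < N := by positivity
  set P : ℝ := ((Fintype.piFinset 𝒞).card : ℝ) with hP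
  have h1 : (((Fintype.piFinset 𝒞).filter fun T => ok Q T ∧ G (vl Q a b T)).card : ℝ) * N =
      ∑ c : E → ZMod 2, (∑ f ∈ univ.filter G, sg (∑ e, c e * f e)) *
        ∑ T ∈ Fintype.piFinset 𝒞, (if ok Q T then sg (∑ e, c e * vl Q a b T e) else 0) := by
    have h2 : ∀ T : ι → k[X], (if ok Q T ∧ G (vl Q a b T) then (1 : ℝ) else 0) * N =
        ∑ c : E → ZMod 2, (∑ f ∈ univ.filter G, sg (∑ e, c e * f e)) *
          (if ok Q T then sg (∑ e, c e * vl Q a b T e) else 0) := by
      intro T
      by_cases hT : ok Q T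
      swap
      · rw [if_neg (fun h => hT h.1), zero_mul]
        simp only [if_neg hT, mul_zero, sum_const_zero]
      simp only [if_pos hT, sum_mul]
      rw [sum_comm]
      simp only [← orthe]
      rw [sum_ite_eq' (univ.filter G) (vl Q a b T) (fun _ => (2 : ℝ) ^ Fintype.card E)]
      by_cases hG : G (vl Q a b T)
      · rw [if_pos ⟨hT, hG⟩, if_pos (mem_filter.2 ⟨mem_univ _, hG⟩), one_mul]
      · rw [if_neg (fun h => hG h.2), if_neg (fun h => hG (mem_filter.1 h).2), zero_mul]
    rw [card_filter]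
    push_cast
    rw [sum_mul]
    simp only [h2]
    rw [sum_comm]
    exact sum_congr rfl fun c _ => (mul_sum _ _ _).symm
  have hG0 : ((univ.filter G).card : ℝ) ≤ N := by
    have h := card_le_univ (univ.filter G)
    rw [Fintype.card_fun, ZMod.card] at h
    rw [hN]
    exact_mod_cast h
  have h3 : ∀ c : E → ZMod 2, (∑ f ∈ univ.filter G, sg (∑ e, c e * f e)) *
        ∑ T ∈ Fintype.piFinset 𝒞, (if ok Q T then sg (∑ e, c e * vl Q a b T e) else 0) ≤
      (if c = 0 then ((univ.filter G).card : ℝ) *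
        (((Fintype.piFinset 𝒞).filter fun T => ok Q T).card : ℝ) else 0) + N * (η * P) := by
    intro c
    have h0 : 0 ≤ N * (η * P) := mul_nonneg hN0.le (mul_nonneg hc.eta0 (Nat.cast_nonneg _))
    by_cases h : c = 0
    · rw [if_pos h, h]
      simp only [Pi.zero_apply, zero_mul, sum_const_zero, sg_zero]
      have h5 : ∑ T ∈ Fintype.piFinset 𝒞, (if ok Q T then (1 : ℝ) else 0) =
          (((Fintype.piFinset 𝒞).filter fun T => ok Q T).card : ℝ) := sum_boole _ _
      rw [sum_const, nsmul_one, h5]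
      linarith
    · rw [if_neg h, zero_add]
      refine (le_abs_self _).trans ?_
      rw [abs_mul]
      refine mul_le_mul ?_ (outer_bound hc hE c h) (abs_nonneg _) hN0.le
      refine (abs_sum_le_sum_abs _ _).trans ?_
      simp only [abs_sg]
      rw [sum_const, nsmul_one]
      exact hG0
  have h4 : (((Fintype.piFinset 𝒞).filter fun T => ok Q T ∧ G (vl Q a b T)).card : ℝ) * N ≤
      ((univ.filter G).card : ℝ) * (((Fintype.piFinset 𝒞).filter fun T => ok Q T).card : ℝ) +
        N * (N * (η * P)) := by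
    rw [h1]
    refine (sum_le_sum fun c _ => h3 c).trans (le_of_eq ?_)
    rw [sum_add_distrib, sum_ite_eq', if_pos (mem_univ _), sum_const, nsmul_eq_mul, card_univ,
      Fintype.card_fun, ZMod.card]
    push_cast
    rfl
  rw [← mul_le_mul_iff_left₀ hN0]
  refine h4.trans (le_of_eq ?_)
  field_simp

end cell

section table

variable {k : Type} [Field k] [Fintype k] [DecidableEq k] {τ ι : Type} [Fintype τ] [Fintype ι]
  [LinearOrder ι]

/-- the entries of a table -/
abbrev EE (τ : Type) {ι : Type} [Fintype ι] [LinearOrder ι] (lg : Finset ι) : Type :=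
  ({i // i ∈ lg} × τ) ⊕ (({i // i ∈ lg} × {i // i ∉ lg}) ⊕ prs (univ : Finset {i // i ∈ lg}))

/-- the first index of an entry -/
def ea (lg : Finset ι) : EE τ lg → ι :=
  Sum.elim (fun x => x.1.1) (Sum.elim (fun x => x.1.1) fun e => e.1.1.1)

/-- the second index of an entry -/
def eb (lg : Finset ι) : EE τ lg → ι ⊕ τ :=
  Sum.elim (fun x => Sum.inr x.2) (Sum.elim (fun x => Sum.inl x.2.1) fun e => Sum.inl e.1.2.1)

theorem prs_ne {lg : Finset ι} (e : prs (univ : Finset {i // i ∈ lg})) : e.1.1 < e.1.2 := by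
  have h := (mem_filter.1 e.2).2
  exact h.2.2 (mem_univ _)

theorem ent (lg : Finset ι) : Ent (τ := τ) lg (ea lg) (eb lg) where
  ha := by
    rintro (x | x | e)
    · exact x.1.2
    · exact x.1.2
    · exact e.1.1.2
  hne := by
    rintro (x | x | e) h
    · exact (Sum.inr_ne_inl h).elim
    · have h' : x.2.1 = x.1.1 := Sum.inl_injective h
      exact x.2.2 (h' ▸ x.1.2)
    · have h' : e.1.2.1 = e.1.1.1 := Sum.inl_injective h
      exact (prs_ne e).ne (Subtype.ext h'.symm)
  hinj := by
    rintro (x | x | e) (y | y | f) h1 h2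
    · have h1' : x.1.1 = y.1.1 := h1
      have h2' : x.2 = y.2 := Sum.inr_injective h2
      exact congrArg _ (Prod.ext (Subtype.ext h1') h2')
    · exact (Sum.inr_ne_inl h2).elim
    · exact (Sum.inr_ne_inl h2).elim
    · exact (Sum.inl_ne_inr h2).elim
    · have h1' : x.1.1 = y.1.1 := h1
      have h2' : x.2.1 = y.2.1 := Sum.inl_injective h2
      exact congrArg _ (congrArg _ (Prod.ext (Subtype.ext h1') (Subtype.ext h2')))
    · have h2' : x.2.1 = f.1.2.1 := Sum.inl_injective h2
      exact absurd (h2' ▸ f.1.2.2) x.2.2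
    · exact (Sum.inl_ne_inr h2).elim
    · have h2' : e.1.2.1 = y.2.1 := Sum.inl_injective h2
      exact absurd (h2' ▸ e.1.2.2) y.2.2
    · have h1' : e.1.1.1 = f.1.1.1 := h1
      have h2' : e.1.2.1 = f.1.2.1 := Sum.inl_injective h2
      exact congrArg _ (congrArg _ (Subtype.ext (Prod.ext (Subtype.ext h1') (Subtype.ext h2'))))
  hsw := by
    rintro (x | x | e) (y | y | f) h1 h2
    · exact (Sum.inr_ne_inl h1).elim
    · exact (Sum.inr_ne_inl h1).elim
    · exact (Sum.inr_ne_inl h1).elim
    · exact (Sum.inr_ne_inl h2).elim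
    · have h' : x.2.1 = y.1.1 := Sum.inl_injective h1
      exact absurd (h' ▸ y.1.2) x.2.2
    · have h' : x.2.1 = f.1.1.1 := Sum.inl_injective h1
      exact absurd (h' ▸ f.1.1.2) x.2.2
    · exact (Sum.inr_ne_inl h2).elim
    · have h' : y.2.1 = e.1.1.1 := Sum.inl_injective h2
      exact absurd (h' ▸ e.1.1.2) y.2.2
    · have h1' : e.1.2.1 = f.1.1.1 := Sum.inl_injective h1
      have h2' : f.1.2.1 = e.1.1.1 := Sum.inl_injective h2
      have h3 := prs_ne e
      have h4 := prs_ne f
      rw [Subtype.ext h1'] at h3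
      rw [Subtype.ext h2'] at h4
      exact absurd (h3.trans h4) (lt_irrefl _)

/-- the table with given entries -/
def tof (lg : Finset ι) : (EE τ lg → ZMod 2) ≃ TB τ lg where
  toFun f := (fun i s => f (Sum.inl (i, s)), fun i u => f (Sum.inr (Sum.inl (i, u))),
    fun e => f (Sum.inr (Sum.inr e)))
  invFun t := Sum.elim (fun x => t.1 x.1 x.2) (Sum.elim (fun x => t.2.1 x.1 x.2) t.2.2)
  left_inv f := by
    funext x
    rcases x with x | x | e <;> rfl
  right_inv t := rfl

theorem tof_vl (Q : τ → k[X]) (lg : Finset ι) (T : ι → k[X]) :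
    tof lg (vl Q (ea lg) (eb lg) T) = tab Q lg T := rfl

end table

theorem t_TAB : S_TAB := by
  intro k _ _ _ τ _ Q ι _ _ 𝒞 lg Nd η hc F
  have h := main hc (ent (τ := τ) lg) (fun f => F (tof lg f))
  have h1 : Nat.card (TB τ lg) = 2 ^ Fintype.card (EE τ lg) := by
    rw [← Nat.card_congr (tof (τ := τ) lg), Nat.card_eq_fintype_card, Fintype.card_fun, ZMod.card]
  have h2 : Nat.card {t : TB τ lg // F t} =
      (univ.filter fun f : EE τ lg → ZMod 2 => F (tof lg f)).card := by
    rw [← Fintype.card_subtype, ← Nat.card_eq_fintype_card]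
    exact (Nat.card_congr ((tof (τ := τ) lg).subtypeEquiv fun f => Iff.rfl)).symm
  rw [h1, h2]
  push_cast
  simp only [tof_vl] at h
  exact h

end Pool.Agent.Q162.DX
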